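import Mathlib

/-!
# MP_593d43_lc: a span 10 sequence of small linear span from an orthogonal feedback function

The conjectured lower bound `2 ^ n - 2 - 3 n` for the linear span of the span `n` sequences generated
by nonlinear feedback shift registers with an orthogonal function `g` is false: for `m = 9`, `n = 10`,
the primitive polynomial `x^9 + x^8 + x^7 + x^3 + x^2 + x + 1` with root `α`, the monomial trace
function `g(x) = Tr(α^301 x^107)`, the taps `1, …, 9` and `c = 0` the sequence is a span `10` sequence
with linear span at most `987 < 992 = 2 ^ 10 - 2 - 30`.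

The example was found by a computer search. The proof runs through one period by kernel computation;
the linear recurrence of length `987` comes from a periodic sequence `t` with `s = F(E) t` (`E` is the
shift, `F` a divisor of degree `36` of `x^1023 + 1`).
-/

namespace Pool.Agent.Results.MP_593d43_lc.SmallLinearSpan

open Polynomial Finset

/-- `g` is orthogonal: `∑_x (-1) ^ (g (l x) + g x) = 0` for all `l ≠ 1` -/
def Orthogonal {K : Type} [Field K] [Fintype K] (g : K → ZMod 2) : Prop :=
  ∀ l : K, l ≠ 1 → ∑ x : K, (-1 : ℤ) ^ (g (l * x) + g x).val = 0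

/-- the element of `K` with the coordinates `x 0, x 1, …` in the basis `1, α, α ^ 2, …` -/
def ofCoord {K : Type} [Field K] (α : K) {m : ℕ} (x : Fin m → ZMod 2) : K :=
  ∑ i : Fin m, ((x i).val : K) * α ^ (i : ℕ)

/-- `g` is an affine function of the coordinates -/
def AffineIn {K : Type} [Field K] (α : K) (m : ℕ) (g : K → ZMod 2) : Prop :=
  ∃ (a₀ : ZMod 2) (a : Fin m → ZMod 2), ∀ x : Fin m → ZMod 2,
    g (ofCoord α x) = a₀ + ∑ i, a i * x i

/-- `s` has period `2 ^ n - 1` and each nonzero `n`-tuple occurs exactly once among the windows of one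
period -/
def IsSpan (n : ℕ) (s : ℕ → ZMod 2) : Prop :=
  (∀ k, s (k + (2 ^ n - 1)) = s k) ∧
    ∀ t : Fin n → ZMod 2, t ≠ 0 → ∃! k : ℕ, k < 2 ^ n - 1 ∧ ∀ i : Fin n, s (k + i) = t i

/-- the linear span: the length of the shortest linear feedback shift register that generates `s` -/
noncomputable def LS (s : ℕ → ZMod 2) : ℕ :=
  sInf {L | ∃ c : Fin L → ZMod 2, ∀ k, s (k + L) = ∑ i : Fin L, c i * s (k + i)}

/-- the data of the problem: `K` is a field with `2 ^ m` elements, `α` a primitive element, `g`
orthogonal and not affine, `r` the taps, `s` a sequence generated by the shift register -/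
structure Data (m n : ℕ) (K : Type) [Field K] [Fintype K] (α : K) (g : K → ZMod 2) (c : ZMod 2)
    (r : Fin m → ℕ) (s : ℕ → ZMod 2) : Prop where
  one_le : 1 ≤ m
  lt : m < n
  card : Fintype.card K = 2 ^ m
  primitive : orderOf α = 2 ^ m - 1
  orth : Orthogonal g
  nonaffine : ¬ AffineIn α m g
  mono : StrictMono r
  pos : ∀ i, 0 < r i
  small : ∀ i, r i < n
  recur : ∀ k, s (k + n) = c + s k + g (ofCoord α fun i => s (k + r i))

/-- the assertion of Q1 -/
def Conjecture : Prop :=
  ∀ (m n : ℕ) (K : Type) [Field K] [Fintype K] (α : K) (g : K → ZMod 2) (c : ZMod 2)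
    (r : Fin m → ℕ) (s : ℕ → ZMod 2), Data m n K α g c r s →
    (IsSpan n s ∨ IsSpan n (fun k => 1 + s k)) →
    (2 : ℤ) ^ n - 2 - 3 * n ≤ LS s ∧ (LS s : ℤ) ≤ 2 ^ n - 2

/-! ### bits -/

/-- a bit as an element of `ZMod 2` -/
def B2 (b : Bool) : ZMod 2 := if b then 1 else 0

theorem B2_xor (a b : Bool) : B2 (a ^^ b) = B2 a + B2 b := by
  cases a <;> cases b <;> decide

theorem B2_val (b : Bool) : (B2 b).val = b.toNat := by cases b <;> decide

theorem B2_inj {a b : Bool} (h : B2 a = B2 b) : a = b := by
  cases a <;> cases b <;> first | rfl | (exact absurd h (by decide))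

theorem exists_B2 (x : ZMod 2) : ∃ b, B2 b = x := by
  fin_cases x
  · exact ⟨false, rfl⟩
  · exact ⟨true, rfl⟩

section
variable {R : Type} [CommRing R] [CharP R 2]

/-- the combination of the `w i` with the bits of `a` -/
def Phi (w : ℕ → R) (N a : ℕ) : R := ∑ i ∈ range N, (a.testBit i).toNat * w i

theorem Phi_xor (w : ℕ → R) (N a b : ℕ) : Phi w N (a ^^^ b) = Phi w N a + Phi w N b := by
  unfold Phi
  rw [← sum_add_distrib]
  apply sum_congr rfl
  intro i _
  rw [Nat.testBit_xor]
  cases a.testBit i <;> cases b.testBit i <;> simp [CharTwo.add_self_eq_zero]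

omit [CharP R 2] in
theorem Phi_zero (w : ℕ → R) (N : ℕ) : Phi w N 0 = 0 := by simp [Phi]

omit [CharP R 2] in
/-- multiplication by `2 ^ j` -/
theorem Phi_pow_shift (x : R) (N j a : ℕ) :
    Phi (fun i => x ^ i) (N + j) (a <<< j) = x ^ j * Phi (fun i => x ^ i) N a := by
  unfold Phi
  rw [add_comm N j, sum_range_add, sum_eq_zero (s := range j), zero_add, mul_sum]
  · apply sum_congr rfl
    intro i _
    rw [Nat.testBit_shiftLeft]
    simp [pow_add]
    ring
  · intro i hi
    rw [Nat.testBit_shiftLeft]
    have := mem_range.1 hi
    simp [not_le.2 this]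

omit [CharP R 2] in
theorem Phi_ext (w : ℕ → R) {N N' a : ℕ} (h : N ≤ N') (ha : a < 2 ^ N) :
    Phi w N' a = Phi w N a := by
  unfold Phi
  symm
  apply sum_subset (range_subset_range.2 h)
  intro i _ hi
  have h1 : N ≤ i := not_lt.1 fun h => hi (mem_range.2 h)
  rw [Nat.testBit_lt_two_pow (lt_of_lt_of_le ha (Nat.pow_le_pow_right (by norm_num) h1))]
  simp

end


/-! ### tables -/

/-- the truth table of `g` -/
def cT : ℕ := 7353854211881379105855638917268731113285812867141875133930101286525018278590808026801146252284154734019544900231979343628036392383233202978268036361874224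

/-- the powers of `α` -/
def cAL : ℕ := 24335263013018513569829788010571083868860970085424402702546369829792816234147418429694024678912209059519924501986133928804276946040256756934348774428177390852188733441312682364280138210738161126026407215494557686171325060940814547854811421210507026970298035546209186719233603999927954836988617742443201247628927927247114182310567409610798502035059492829604435927262649224580794876121988004362544664819343930841054338433205496256772693957751599392736640042552289922558591884789036631795810410734798426719500425529971305908087402839057793696411981387017751911065891303559029599190567061281851428134257914418720740779335313569072997223545804975049296490503880166229664085627634023541696555592684879695216012828541020165819263157668705013602015859822944245244632513762207940123918283481937367463415797825425565235299662034040295896550841562039816846379855316336490590752238676817828861384338860124468728215610412298578708064402223424698372460767097904610688087055359914819302452088965739536331427635289444468111590973541863717577569468337594795740762224215167541412807495550581561080953246631277129124097367160402935737825896244284840811309769399920854231593738138357380181654206263215287580412145979794603606766488636091474991520091025131499999314275351516011107460134295337622302607957964513616868396725665925482443069585325706313178766947963311225132701919847430311029430777175572743169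

/-- the logarithms -/
def cLG : ℕ := 12566627499484730857162856963942095004053682436885788651150832978277661229950026800571360244739952059859409292874726049215402721533979710884097988416730947064032535577173645867908462499832765223067731124673620862412981905990637184131540792136747399831148293449218014801249803813511921775260935006617654518846307607398962288397458862889051468227663871727611217921766522973469709986798226424413319643090565297745987966170232450909003892843444100431942743286963129612696047544210517141623908924469403133001074249132265942792144104678994186120066925974037713100983681484799258774261656438168954102439109186000107782891589236128794785453454707102171002720696038635173980626434363953835293291059693311557657240842538008400909412759884571889848085247512533633429694056770380253797085951046743929127769561315908827701674380937540855738246014868861866171239549212996863111227748269689437324838916327353705705335476770360036398509906395282033622777707685662743522840593685297474917182840349762890616924510227174547940489473289862790615457467389632409032092934579506067348703338635251514299803207193907871671555306764102336917695460731365495551183293881000623491580122127288721855197194825243415015264448733506621107577874471486481332464044258308697450201738494255651523908883782779295090803902141850212368358370549956300849854224142258792527618205639853696743866951306706513780173002511223772938240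

/-- one period of the sequence -/
def cS : ℕ := 21263816907832081167261978278249220521252426188952589088970965191992773216091349620746260366016734081933683294363739224851726812247258458209774845001939170861253141129483305546275142765851241132469412500751158143086429777103468729901131264535116283353462546002841178992068545841613178507050996583885056095233

/-- the times at which the states are visited -/
def cI : ℕ := 294264138753022758647119399743145410134054971612602266901919491872166566162194459110854116670320744809330214387497987788805589442115762426258209807588043858581002761313980077986853491693224149439437451195994454902279444892487806160269615786553345208040079560671934751360454103391871391223901740136167210735209839872618362686090393463703467466021802198819949862681937821532333895526495626662576000215188411188141775656362445307332454001457110142521599501747069050304118831521504049931222247041471334401712028853029169447034860637146465795339045758202740574124669427282238178998877222280314287294215601094775335994310460258650924127768740247067116889348248054399392552451439350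151278847105574919482814719142458433455216698469697150455365742383024244210289936179741717730563801850561313068383735155442289144038227817106219020857657284870784117400752128395815011827461173502932579978339615045695555574345116768032893742047193492415049554144456273113687090053513559433479854955895785701377950116254983974607523234694526608760579046932344458882735866990226763237580450439581058840524221913630442852502851158296085354616467431028993371714808529606462035096137394152554640205121785156143269702634683365126981754877002118623290651673601992945080321559660839543177999646000885688038493466961095523528990960378106144444504538069915070570888697496666335732238289896585778670579458012080960280687077371138375883631582677663784664204614457141401855404242555893677742280603230149586453673482241801282764219485347625578385762723749808801645402840817250013181463805656430345955346709442281559939670161068243975066414580413199659458771761185152561198904646225950315443145439025487267941215560461564575550991618902379112728117091968883780259755949845296092637609851730717060684259698503072753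72331023513401330823132464026152998202100642379887876695400002757756843781844834233834659745007590049063104893025468157631676030151609807469534934939051593585162236949188413171604436987983950117882034802211576602472469241358802494942894136557028200592667605417873993050316252293774574076806968254624849432580627018519001309150175643607223441710861001679474737137799348351848321887945666027283763936274308682496929352727692711618038447005278748758797679737588205780815941309435178899597557007236527704562205742712618847734953113051280077946645458874214564317682329425901544029119229706996773480426352686865400050967748389908917436986977698774865770756825017785591441763356133960632763732365075794094689748461678124194607608907927188559926105228880237053055944681446943394912056140714071818103543532342175373717795826988150180197543601605409426559281032792318844065957033188058445082092397498186340547759950458745619464485232696601482497347644171924177072338737461486583116779733817981959259950265210787082222880602247344423677382721858469456859845309236905725353938009041895155476348981067746724784765084298792260948787837296207648645233115997735863999046424975052116554955613717209505447009386310935696900334757334875375673958022143180879920155886455939808497708933226618087461988423901268239689876326651527168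

/-- the divisor of degree 36 -/
def cF : ℕ := 119175482697

/-- the cofactor of degree 987 -/
def cC : ℕ := 2364503133754048794070166345418619850891072671489620473512599904689240784812416394352768757776665615127156960982969409140191781703671264146956564250171204788665360079571011279970799646587424300898253682292694585172545862915334539053979958618381190998352146948828420610117017011379172115124223205129

/-- one period of `t` -/
def cTT : ℕ := 20791499172469124374193643514206528616351084948946956769866776117967120332425028403871060013764788723718558340342631154551758232188154442868931731719270697073014539123186645989845495034758666641968891568211277174400111269169074162859106310894788176566425461563999077302172265781622250852947198117189274042368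

/-- the combination of checks along an orbit -/
def loop (step : ℕ → ℕ) (chk : ℕ → ℕ → Bool) : ℕ → ℕ → ℕ → Bool
  | 0, _, _ => true
  | f + 1, i, x => chk i x && loop step chk f (i + 1) (step x)

theorem loop_spec {step : ℕ → ℕ} {chk : ℕ → ℕ → Bool} {f i x : ℕ}
    (h : loop step chk f i x = true) : ∀ j < f, chk (i + j) (step^[j] x) = true := by
  induction f generalizing i x with
  | zero => intro j hj; omega
  | succ f ih =>
    rw [loop, Bool.and_eq_true] at h
    intro j hj
    rcases j with _ | j
    · exact h.1
    · rw [Function.iterate_succ_apply, show i + (j + 1) = i + 1 + j by ring]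
      exact ih h.2 j (by omega)

/-- multiplication by `α` -/
def stepA (x : ℕ) : ℕ := if x < 256 then x <<< 1 else (x <<< 1) ^^^ 911

/-- the table of the powers -/
def antilog (j : ℕ) : ℕ := (cAL >>> (9 * j)) &&& 511

/-- the values of the linear functional -/
def linb : ℕ → ℕ → Bool
  | 0, _ => false
  | n + 1, a => linb n a ^^ (a.testBit n && (439 : ℕ).testBit n)

/-- the checks for the powers of `α` -/
def chkA (i x : ℕ) : Bool :=
  antilog i == x && ((cLG >>> (9 * x)) &&& 511 == i) && decide (0 < x) &&
    (cT.testBit x == linb 9 (antilog ((301 + 107 * i) % 511)))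

/-- the powers of `α` -/
def al (i : ℕ) : ℕ := stepA^[i] 1

theorem loopA : loop stepA chkA 511 0 1 = true := by decide +kernel

theorem al_511 : al 511 = 1 := by decide +kernel

theorem chkA_al {i : ℕ} (hi : i < 511) : chkA i (al i) = true := by
  have := loop_spec loopA i hi
  simpa [al] using this

theorem antilog_eq {i : ℕ} (hi : i < 511) : antilog i = al i := by
  have := chkA_al hi
  simp only [chkA, Bool.and_eq_true, beq_iff_eq, decide_eq_true_eq] at this
  exact this.1.1.1

theorem lg_eq {i : ℕ} (hi : i < 511) : (cLG >>> (9 * al i)) &&& 511 = i := by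
  have := chkA_al hi
  simp only [chkA, Bool.and_eq_true, beq_iff_eq, decide_eq_true_eq] at this
  exact this.1.1.2

theorem al_pos {i : ℕ} (hi : i < 511) : 0 < al i := by
  have := chkA_al hi
  simp only [chkA, Bool.and_eq_true, beq_iff_eq, decide_eq_true_eq] at this
  exact this.1.2

theorem T_al {i : ℕ} (hi : i < 511) : cT.testBit (al i) = linb 9 (al ((301 + 107 * i) % 511)) := by
  have := chkA_al hi
  simp only [chkA, Bool.and_eq_true, beq_iff_eq, decide_eq_true_eq] at this
  rw [this.2, antilog_eq (Nat.mod_lt _ (by norm_num))]

theorem al_inj {i j : ℕ} (hi : i < 511) (hj : j < 511) (h : al i = al j) : i = j := by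
  have h1 := lg_eq hi
  rw [h, lg_eq hj] at h1
  exact h1.symm

theorem stepA_lt {x : ℕ} (hx : x < 512) : stepA x < 512 := by
  have : ∀ x < 512, stepA x < 512 := by decide +kernel
  exact this x hx

theorem al_lt (i : ℕ) : al i < 512 := by
  induction i with
  | zero => decide
  | succ i ih => rw [al, Function.iterate_succ_apply']; exact stepA_lt ih

theorem exists_al {a : ℕ} (ha : a < 512) (h0 : a ≠ 0) : ∃ i < 511, al i = a := by
  have h1 : (range 511).image al = Finset.Ico 1 512 := by
    apply Finset.eq_of_subset_of_card_le
    · intro x hx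
      obtain ⟨i, hi, rfl⟩ := Finset.mem_image.1 hx
      exact Finset.mem_Ico.2 ⟨al_pos (mem_range.1 hi), al_lt i⟩
    · rw [Finset.card_image_of_injOn]
      · simp
      · intro i hi j hj h
        exact al_inj (by simpa using hi) (by simpa using hj) h
  have h2 : a ∈ Finset.Ico 1 512 := Finset.mem_Ico.2 ⟨by omega, ha⟩
  rw [← h1] at h2
  obtain ⟨i, hi, h⟩ := Finset.mem_image.1 h2
  exact ⟨i, mem_range.1 hi, h⟩

theorem linb_xor (n a b : ℕ) : linb n (a ^^^ b) = (linb n a ^^ linb n b) := by
  induction n with
  | zero => rfl
  | succ n ih =>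
    rw [linb, linb, linb, ih, Nat.testBit_xor]
    cases linb n a <;> cases linb n b <;> cases a.testBit n <;> cases b.testBit n <;>
      cases (439 : ℕ).testBit n <;> rfl

/-! ### the field -/

section
variable {K : Type} [Field K] [CharP K 2] {α : K} (hα : Phi (fun i => α ^ i) 10 911 = 0)
include hα

theorem phi_step {x : ℕ} (hx : x < 512) :
    Phi (fun i => α ^ i) 9 (stepA x) = α * Phi (fun i => α ^ i) 9 x := by
  have h1 := Phi_pow_shift α 9 1 x
  rw [pow_one] at h1
  rw [← h1, ← Phi_ext (fun i => α ^ i) (show 9 ≤ 9 + 1 by norm_num) (stepA_lt hx), stepA]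
  split_ifs with h
  · rfl
  · rw [Phi_xor]
    have : Phi (fun i => α ^ i) (9 + 1) 911 = 0 := hα
    rw [this, add_zero]

theorem phi_al (i : ℕ) : Phi (fun i => α ^ i) 9 (al i) = α ^ i := by
  induction i with
  | zero => simp [Phi, al, sum_range_succ, Nat.testBit]
  | succ i ih =>
    rw [al, Function.iterate_succ_apply']
    have := phi_step hα (al_lt i)
    rw [al] at this ih
    rw [this, ih, pow_succ']

theorem alpha_pow : α ^ 511 = 1 := by
  rw [← phi_al hα 511, al_511]
  have := phi_al hα 0
  rw [pow_zero] at this
  exact this

theorem alpha_ne : α ≠ 0 := by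
  intro h
  have := alpha_pow hα
  rw [h, zero_pow (by norm_num)] at this
  exact zero_ne_one this

theorem phi_inj {a b : ℕ} (ha : a < 512) (hb : b < 512)
    (h : Phi (fun i => α ^ i) 9 a = Phi (fun i => α ^ i) 9 b) : a = b := by
  by_contra hne
  have h1 : a ^^^ b ≠ 0 := fun h => hne (Nat.xor_eq_zero_iff.1 h)
  have h2 : a ^^^ b < 512 := Nat.xor_lt_two_pow (n := 9) ha hb
  obtain ⟨i, _, hi⟩ := exists_al h2 h1
  have h3 := Phi_xor (fun i => α ^ i) 9 a b
  rw [h, CharTwo.add_self_eq_zero, ← hi, phi_al hα] at h3
  exact pow_ne_zero i (alpha_ne hα) h3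

theorem order_alpha : orderOf α = 511 := by
  rw [orderOf_eq_iff (by norm_num)]
  refine ⟨alpha_pow hα, fun m hm h0 h => ?_⟩
  have h1 := phi_inj hα (al_lt m) (al_lt 0) (by rw [phi_al hα, phi_al hα, h, pow_zero])
  have := al_inj hm (by norm_num) h1
  omega

end

/-! ### the function `g` -/

theorem neg_pow_add (a b : ZMod 2) : (-1 : ℤ) ^ (a + b).val = (-1) ^ a.val * (-1) ^ b.val := by
  revert a b; decide

section
variable {K : Type} [Field K] [Fintype K] [CharP K 2] (hK : Fintype.card K = 512) {α : K}
  (hα : Phi (fun i => α ^ i) 10 911 = 0)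
include hK hα

theorem exists_psi (y : K) : ∃ a < 512, Phi (fun i => α ^ i) 9 a = y := by
  have hb : Function.Bijective (fun a : Fin 512 => Phi (fun i => α ^ i) 9 (a : ℕ)) := by
    rw [Fintype.bijective_iff_injective_and_card]
    refine ⟨fun a b h => Fin.ext (phi_inj hα a.2 b.2 h), by simp [hK]⟩
  obtain ⟨a, ha⟩ := hb.2 y
  exact ⟨a, a.2, ha⟩

/-- the coordinates of `y` -/
noncomputable def psi (y : K) : ℕ := (exists_psi hK hα y).choose

theorem psi_lt (y : K) : psi hK hα y < 512 := (exists_psi hK hα y).choose_spec.1

theorem phi_psi (y : K) : Phi (fun i => α ^ i) 9 (psi hK hα y) = y :=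
  (exists_psi hK hα y).choose_spec.2

theorem psi_phi {a : ℕ} (ha : a < 512) : psi hK hα (Phi (fun i => α ^ i) 9 a) = a :=
  phi_inj hα (psi_lt hK hα _) ha (phi_psi hK hα _)

theorem psi_add (y z : K) : psi hK hα (y + z) = psi hK hα y ^^^ psi hK hα z := by
  apply phi_inj hα (psi_lt hK hα _)
    (Nat.xor_lt_two_pow (n := 9) (psi_lt hK hα _) (psi_lt hK hα _))
  rw [Phi_xor, phi_psi, phi_psi, phi_psi]

/-- the linear functional -/
noncomputable def ell (y : K) : ZMod 2 := B2 (linb 9 (psi hK hα y))

theorem ell_add (y z : K) : ell hK hα (y + z) = ell hK hα y + ell hK hα z := by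
  rw [ell, ell, ell, psi_add, linb_xor, B2_xor]

theorem ell_phi {a : ℕ} (ha : a < 512) : ell hK hα (Phi (fun i => α ^ i) 9 a) = B2 (linb 9 a) := by
  rw [ell, psi_phi hK hα ha]

/-- the function `g` -/
noncomputable def gg (y : K) : ZMod 2 := ell hK hα (α ^ 301 * y ^ 107)

theorem gg_phi {a : ℕ} (ha : a < 512) :
    gg hK hα (Phi (fun i => α ^ i) 9 a) = B2 (cT.testBit a) := by
  by_cases h0 : a = 0
  · subst h0
    have h1 : ell hK hα (0 : K) = B2 (linb 9 0) := by
      have := ell_phi hK hα (a := 0) (by norm_num)
      rwa [Phi_zero] at this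
    rw [gg, Phi_zero, zero_pow (by norm_num), mul_zero, h1]
    decide +kernel
  · obtain ⟨i, hi, rfl⟩ := exists_al ha h0
    have h2 : α ^ 301 * (α ^ i) ^ 107 = α ^ ((301 + 107 * i) % 511) := by
      rw [← pow_mul, ← pow_add, show 301 + i * 107 = 301 + 107 * i by ring]
      conv_lhs => rw [← Nat.mod_add_div (301 + 107 * i) 511, pow_add, pow_mul, alpha_pow hα,
        one_pow, mul_one]
    rw [gg, phi_al hα, h2, ← phi_al hα, ell_phi hK hα (al_lt _), T_al hi]

theorem sum_ell : ∑ y : K, (-1 : ℤ) ^ (ell hK hα y).val = 0 := by
  have h1 : ell hK hα (Phi (fun i => α ^ i) 9 1) = 1 := by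
    rw [ell_phi hK hα (by norm_num)]; decide +kernel
  set y0 := Phi (fun i => α ^ i) 9 1
  have h2 : ∑ y : K, (-1 : ℤ) ^ (ell hK hα (y + y0)).val = ∑ y : K, (-1 : ℤ) ^ (ell hK hα y).val :=
    Fintype.sum_equiv (Equiv.addRight y0) _ _ fun y => rfl
  have h3 : ∀ y : K, (-1 : ℤ) ^ (ell hK hα (y + y0)).val = - (-1 : ℤ) ^ (ell hK hα y).val := by
    intro y
    rw [ell_add, neg_pow_add, h1, show (1 : ZMod 2).val = 1 from rfl]
    ring
  rw [sum_congr rfl fun y _ => h3 y, sum_neg_distrib] at h2
  omega

theorem orth_gg : Orthogonal (gg hK hα) := by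
  intro l hl
  have hpow : ∀ x : K, x ≠ 0 → x ^ 511 = 1 := by
    intro x hx
    have := FiniteField.pow_card_sub_one_eq_one x hx
    rwa [hK] at this
  have hinj : Function.Injective fun x : K => x ^ 107 := by
    intro x y h
    have h' : x ^ 107 = y ^ 107 := h
    by_cases hx : x = 0
    · subst hx
      rw [zero_pow (by norm_num)] at h'
      exact (pow_eq_zero_iff (by norm_num)).1 h'.symm |>.symm
    · have hy : y ≠ 0 := by
        rintro rfl
        rw [zero_pow (by norm_num)] at h'
        exact hx ((pow_eq_zero_iff (by norm_num)).1 h')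
      have e : ∀ z : K, z ≠ 0 → (z ^ 107) ^ 277 = z := by
        intro z hz
        rw [← pow_mul, show 107 * 277 = 511 * 58 + 1 by norm_num, pow_add, pow_mul, hpow z hz,
          one_pow, one_mul, pow_one]
      rw [← e x hx, ← e y hy, h']
  have hγ : α ^ 301 * (l ^ 107 + 1) ≠ 0 := by
    apply mul_ne_zero (pow_ne_zero _ (alpha_ne hα))
    intro h
    have h1 : l ^ 107 = 1 ^ 107 := by
      rw [one_pow, ← CharTwo.neg_eq (1 : K)]
      exact eq_neg_of_add_eq_zero_left h
    exact hl (hinj h1)
  set γ := α ^ 301 * (l ^ 107 + 1) with hγdef
  have h1 : ∀ x : K, gg hK hα (l * x) + gg hK hα x = ell hK hα (γ * x ^ 107) := by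
    intro x
    rw [gg, gg, ← ell_add]
    congr 1
    rw [hγdef]
    ring
  simp only [h1]
  have hb : Function.Bijective fun x : K => γ * x ^ 107 := by
    rw [← Finite.injective_iff_bijective]
    intro x y h
    exact hinj (mul_left_cancel₀ hγ h)
  rw [← sum_ell hK hα]
  exact Fintype.sum_bijective _ hb _ _ fun x => rfl

omit [Fintype K] hK [CharP K 2] hα in
theorem ofCoord_bits (α : K) (a : ℕ) :
    ofCoord α (fun i : Fin 9 => B2 (a.testBit i)) = Phi (fun i => α ^ i) 9 a := by
  rw [ofCoord, Phi, Finset.sum_range]
  apply sum_congr rfl
  intro i _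
  rw [B2_val]

theorem nonaffine_gg : ¬ AffineIn α 9 (gg hK hα) := by
  rintro ⟨a₀, b, h⟩
  have e : ∀ a < 512, B2 (cT.testBit a) = a₀ + ∑ i : Fin 9, b i * B2 (a.testBit i) := by
    intro a ha
    rw [← gg_phi hK hα ha, ← ofCoord_bits, h]
  have e0 := e 0 (by norm_num)
  have e1 := e 1 (by norm_num)
  have e2 := e 10 (by norm_num)
  have e3 := e 11 (by norm_num)
  have h4 : ∑ i : Fin 9, b i * B2 ((0 : ℕ).testBit i) + ∑ i : Fin 9, b i * B2 ((1 : ℕ).testBit i)
      + ∑ i : Fin 9, b i * B2 ((10 : ℕ).testBit i) + ∑ i : Fin 9, b i * B2 ((11 : ℕ).testBit i)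
      = 0 := by
    rw [← sum_add_distrib, ← sum_add_distrib, ← sum_add_distrib]
    apply sum_eq_zero
    intro i _
    rw [← mul_add, ← mul_add, ← mul_add, ← B2_xor, ← B2_xor, ← B2_xor]
    have : ∀ i : Fin 9, ((0 : ℕ).testBit i ^^ (1 : ℕ).testBit i ^^ (10 : ℕ).testBit i ^^
        (11 : ℕ).testBit i) = false := by decide
    rw [this i]
    simp [B2]
  have h5 : B2 (cT.testBit 0) + B2 (cT.testBit 1) + B2 (cT.testBit 10) + B2 (cT.testBit 11)
      = 0 := by
    rw [e0, e1, e2, e3]
    have h2 : (a₀ + a₀) + (a₀ + a₀) = 0 := by rw [CharTwo.add_self_eq_zero]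
    linear_combination h4 + h2
  have h6 : B2 (cT.testBit 0) + B2 (cT.testBit 1) + B2 (cT.testBit 10) + B2 (cT.testBit 11)
      = 1 := by decide +kernel
  rw [h6] at h5
  exact one_ne_zero h5

end

/-! ### the sequence -/

/-- one step of the register -/
def nx (x : ℕ) : ℕ := (x >>> 1) ^^^ (if x.testBit 0 ^^ cT.testBit (x >>> 1) then 512 else 0)

/-- the states -/
def st (k : ℕ) : ℕ := nx^[k] 1

/-- the sequence -/
def ss (k : ℕ) : ZMod 2 := B2 ((st k).testBit 0)

/-- the checks for the states -/
def chkS (k x : ℕ) : Bool :=
  ((cI >>> (10 * x)) &&& 1023 == k) && decide (0 < x) && (cS.testBit k == x.testBit 0)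

theorem loopS : loop nx chkS 1023 0 1 = true := by decide +kernel

theorem st_1023 : st 1023 = 1 := by decide +kernel

theorem chkS_st {k : ℕ} (hk : k < 1023) : chkS k (st k) = true := by
  have := loop_spec loopS k hk
  simpa [st] using this

theorem st_succ (k : ℕ) : st (k + 1) = nx (st k) := by
  rw [st, Function.iterate_succ_apply', ← st]

theorem nx_lt {x : ℕ} (hx : x < 1024) : nx x < 1024 := by
  apply Nat.xor_lt_two_pow (n := 10)
  · rw [Nat.shiftRight_eq_div_pow]; omega
  · split_ifs <;> norm_num

theorem st_lt (k : ℕ) : st k < 1024 := by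
  induction k with
  | zero => decide
  | succ k ih => rw [st_succ]; exact nx_lt ih

theorem st_per (k : ℕ) : st (k + 1023) = st k := by
  rw [st, Function.iterate_add_apply, ← st, st_1023, ← st]

theorem testBit_nx {x j : ℕ} (hj : j < 9) : (nx x).testBit j = x.testBit (j + 1) := by
  rw [nx, Nat.testBit_xor, Nat.testBit_shiftRight, add_comm 1 j]
  have : (if x.testBit 0 ^^ cT.testBit (x >>> 1) then 512 else 0 : ℕ).testBit j = false := by
    split_ifs
    · rw [show (512 : ℕ) = 2 ^ 9 by norm_num, Nat.testBit_two_pow_of_ne (by omega)]
    · simp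
  rw [this, Bool.xor_false]

theorem testBit_nx9 {x : ℕ} (hx : x < 1024) :
    (nx x).testBit 9 = (x.testBit 0 ^^ cT.testBit (x >>> 1)) := by
  rw [nx, Nat.testBit_xor, Nat.testBit_shiftRight,
    Nat.testBit_lt_two_pow (show x < 2 ^ (1 + 9) by norm_num; exact hx), Bool.false_xor]
  split_ifs with h
  · rw [h]; decide
  · rw [Bool.not_eq_true] at h; rw [h]; simp

theorem window {j : ℕ} (hj : j < 10) (k : ℕ) : B2 ((st k).testBit j) = ss (k + j) := by
  induction j generalizing k with
  | zero => rfl
  | succ j ih =>
    rw [← testBit_nx (by omega), ← st_succ, ih (by omega), show k + 1 + j = k + (j + 1) by ring]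

theorem st_inj {k l : ℕ} (hk : k < 1023) (hl : l < 1023) (h : st k = st l) : k = l := by
  have h1 := chkS_st hk
  have h2 := chkS_st hl
  simp only [chkS, Bool.and_eq_true, beq_iff_eq, decide_eq_true_eq] at h1 h2
  rw [← h1.1.1, ← h2.1.1, h]

theorem st_pos {k : ℕ} (hk : k < 1023) : st k ≠ 0 := by
  have h1 := chkS_st hk
  simp only [chkS, Bool.and_eq_true, beq_iff_eq, decide_eq_true_eq] at h1
  exact h1.1.2.ne'

theorem st_ext {k l : ℕ} (h : ∀ j < 10, ss (k + j) = ss (l + j)) : st k = st l := by
  apply Nat.eq_of_testBit_eq
  intro j
  by_cases hj : j < 10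
  · apply B2_inj
    rw [window hj, window hj, h j hj]
  · have e : ∀ k, (st k).testBit j = false := fun k =>
      Nat.testBit_lt_two_pow (lt_of_lt_of_le (st_lt k)
        (Nat.pow_le_pow_right (n := 2) (by norm_num) (not_lt.1 hj)))
    rw [e, e]

theorem isSpan_ss : IsSpan 10 ss := by
  refine ⟨fun k => by rw [ss, show (2 ^ 10 - 1 : ℕ) = 1023 by norm_num, st_per]; rfl, ?_⟩
  have e : (2 ^ 10 - 1 : ℕ) = 1023 := by norm_num
  have himg : (range 1023).image (fun k => fun i : Fin 10 => ss (k + i)) =
      (Finset.univ : Finset (Fin 10 → ZMod 2)).erase 0 := by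
    apply Finset.eq_of_subset_of_card_le
    · intro t ht
      obtain ⟨k, hk, rfl⟩ := Finset.mem_image.1 ht
      refine Finset.mem_erase.2 ⟨fun h => ?_, Finset.mem_univ _⟩
      apply st_pos (mem_range.1 hk)
      apply Nat.eq_of_testBit_eq
      intro j
      rw [Nat.zero_testBit]
      by_cases hj : j < 10
      · apply B2_inj
        rw [window hj]
        exact congrFun h ⟨j, hj⟩
      · exact Nat.testBit_lt_two_pow (lt_of_lt_of_le (st_lt k)
          (Nat.pow_le_pow_right (n := 2) (by norm_num) (not_lt.1 hj)))
    · rw [Finset.card_image_of_injOn]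
      · rw [Finset.card_erase_of_mem (Finset.mem_univ _)]
        simp [ZMod.card]
      · intro k hk l hl h
        exact st_inj (by simpa using hk) (by simpa using hl)
          (st_ext fun j hj => congrFun h ⟨j, hj⟩)
  intro t ht
  have h1 : t ∈ (Finset.univ : Finset (Fin 10 → ZMod 2)).erase 0 :=
    Finset.mem_erase.2 ⟨ht, Finset.mem_univ _⟩
  rw [← himg] at h1
  obtain ⟨k, hk, hkt⟩ := Finset.mem_image.1 h1
  refine ⟨k, ⟨by rw [e]; exact mem_range.1 hk, fun i => congrFun hkt i⟩, ?_⟩
  rintro l ⟨hl, hlt⟩
  rw [e] at hl
  exact st_inj hl (mem_range.1 hk)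
    (st_ext fun j hj => (hlt ⟨j, hj⟩).trans (congrFun hkt ⟨j, hj⟩).symm)

/-! ### the linear span -/

/-- the shift -/
def E : Module.End (ZMod 2) (ℕ → ZMod 2) where
  toFun s := fun k => s (k + 1)
  map_add' _ _ := rfl
  map_smul' _ _ := rfl

theorem E_pow (i : ℕ) (s : ℕ → ZMod 2) (k : ℕ) : (E ^ i) s k = s (k + i) := by
  induction i generalizing s with
  | zero => rfl
  | succ i ih =>
    rw [pow_succ, Module.End.mul_apply, ih (E s)]
    show s (k + i + 1) = _
    rw [add_assoc]

theorem aeval_E (a N : ℕ) (s : ℕ → ZMod 2) (k : ℕ) :
    (aeval E (Phi (fun i => (X : (ZMod 2)[X]) ^ i) N a)) s k =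
      ∑ i ∈ range N, B2 (a.testBit i) * s (k + i) := by
  rw [Phi, map_sum, LinearMap.sum_apply, Finset.sum_apply]
  apply sum_congr rfl
  intro i _
  rw [map_mul, map_natCast, map_pow, aeval_X]
  cases a.testBit i
  · simp [B2]
  · simp [B2, E_pow]

/-- the sequence `t` -/
def tseq (k : ℕ) : ZMod 2 := B2 (cTT.testBit (k % 1023))

/-- the values of `F(E) t` -/
def conv (k : ℕ) : ℕ → Bool
  | 0 => false
  | n + 1 => conv k n ^^ (cF.testBit n && cTT.testBit ((k + n) % 1023))

theorem conv_all : ((List.range 1023).all fun k => conv k 37 == cS.testBit k) = true := by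
  decide +kernel

theorem conv_eq (k n : ℕ) : B2 (conv k n) = ∑ i ∈ range n, B2 (cF.testBit i) * tseq (k + i) := by
  induction n with
  | zero => rfl
  | succ n ih =>
    rw [sum_range_succ, ← ih, conv, B2_xor, tseq]
    congr 1
    cases cF.testBit n <;> cases cTT.testBit ((k + n) % 1023) <;> decide

theorem ss_mod (k : ℕ) : ss k = ss (k % 1023) := by
  have : ∀ q k, ss (k + 1023 * q) = ss k := by
    intro q
    induction q with
    | zero => intro k; rfl
    | succ q ih =>
      intro k
      rw [show k + 1023 * (q + 1) = (k + 1023 * q) + 1023 by ring, ss, st_per, ← ss, ih]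
  conv_lhs => rw [← Nat.mod_add_div k 1023, this]

theorem ss_eq (k : ℕ) : ss k = B2 (cS.testBit (k % 1023)) := by
  have h := chkS_st (Nat.mod_lt k (show 0 < 1023 by norm_num))
  simp only [chkS, Bool.and_eq_true, beq_iff_eq, decide_eq_true_eq] at h
  rw [ss_mod, h.2, ss]

theorem F_t : aeval E (Phi (fun i => (X : (ZMod 2)[X]) ^ i) 37 cF) tseq = ss := by
  funext k
  rw [aeval_E, ss_eq]
  have h := List.all_eq_true.1 conv_all (k % 1023) (List.mem_range.2 (Nat.mod_lt _ (by norm_num)))
  rw [beq_iff_eq] at h
  rw [← h, conv_eq]
  apply sum_congr rfl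
  intro i _
  rw [tseq, tseq, Nat.mod_add_mod]

/-- products with the divisor -/
def mulF : ℕ → ℕ
  | 0 => 0
  | n + 1 => mulF n ^^^ (if cF.testBit n then cC <<< n else 0)

theorem mulF_eq : mulF 37 = (1 <<< 1023) ^^^ 1 := by decide +kernel

theorem cC_lt : cC < 2 ^ 988 := by decide +kernel

theorem Phi_mulF (n : ℕ) (hn : n ≤ 37) :
    Phi (fun i => (X : (ZMod 2)[X]) ^ i) 1025 (mulF n) =
      Phi (fun i => (X : (ZMod 2)[X]) ^ i) n cF * Phi (fun i => (X : (ZMod 2)[X]) ^ i) 988 cC := by
  induction n with
  | zero => simp [Phi, mulF]
  | succ n ih =>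
    rw [mulF, Phi_xor, ih (by omega)]
    rw [show Phi (fun i => (X : (ZMod 2)[X]) ^ i) (n + 1) cF =
      Phi (fun i => (X : (ZMod 2)[X]) ^ i) n cF + ((cF.testBit n).toNat : (ZMod 2)[X]) * X ^ n from
      sum_range_succ _ _, add_mul]
    refine congrArg₂ (· + ·) rfl ?_
    by_cases h : cF.testBit n
    · rw [if_pos h, h]
      have h1 := Phi_pow_shift (X : (ZMod 2)[X]) 988 n cC
      have h2 : cC <<< n < 2 ^ (988 + n) := by
        rw [Nat.shiftLeft_eq, pow_add]
        exact Nat.mul_lt_mul_of_pos_right cC_lt (by positivity)
      rw [Phi_ext _ (show 988 + n ≤ 1025 by omega) h2, h1]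
      simp
    · rw [if_neg h, Bool.not_eq_true] at *
      rw [h]
      simp [Phi_zero]

theorem prod_eq : Phi (fun i => (X : (ZMod 2)[X]) ^ i) 988 cC *
    Phi (fun i => (X : (ZMod 2)[X]) ^ i) 37 cF = X ^ 1023 + 1 := by
  rw [mul_comm, ← Phi_mulF 37 le_rfl, mulF_eq, Phi_xor]
  have h1 := Phi_pow_shift (X : (ZMod 2)[X]) 2 1023 1
  have h2 : Phi (fun i => (X : (ZMod 2)[X]) ^ i) 2 1 = 1 := by
    simp [Phi, sum_range_succ, Nat.testBit]
  rw [show (1025 : ℕ) = 2 + 1023 by norm_num, h1, h2, mul_one,
    Phi_ext _ (show 2 ≤ 2 + 1023 by norm_num) (by norm_num), h2]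

theorem tseq_per (k : ℕ) : tseq (k + 1023) = tseq k := by
  rw [tseq, tseq, Nat.add_mod_right]

theorem aeval_prod : aeval E ((X : (ZMod 2)[X]) ^ 1023 + 1) = E ^ 1023 + 1 := by
  rw [map_add, map_pow, aeval_X, map_one]

theorem C_s (k : ℕ) : ∑ i ∈ range 988, B2 (cC.testBit i) * ss (k + i) = 0 := by
  rw [← aeval_E, ← F_t, ← Module.End.mul_apply, ← map_mul, prod_eq, aeval_prod,
    LinearMap.add_apply, Pi.add_apply, E_pow, Module.End.one_apply, tseq_per,
    CharTwo.add_self_eq_zero]

theorem LS_le : LS ss ≤ 987 := by
  apply Nat.sInf_le
  refine ⟨fun i => B2 (cC.testBit i), fun k => ?_⟩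
  have h := C_s k
  rw [sum_range_succ, show B2 (cC.testBit 987) = 1 by decide +kernel, one_mul, add_comm] at h
  have h1 := eq_neg_of_add_eq_zero_left h
  rw [h1, CharTwo.neg_eq, Finset.sum_range]

/-! ### the field with 512 elements -/

theorem pow512 {L : Type*} [Field L] {y : L} (h : y ^ 511 = 1) : y ^ 512 = y := by
  have := pow_succ y 511
  rw [h, one_mul] at this
  exact this

theorem exists_root : ∃ α : GaloisField 2 9, Phi (fun i => α ^ i) 10 911 = 0 := by
  let L := AlgebraicClosure (ZMod 2)
  have : CharP L 2 := charP_of_injective_algebraMap (algebraMap (ZMod 2) L).injective 2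
  have hroot : ∃ β : L, Phi (fun i => β ^ i) 10 911 = 0 := by
    have h : Phi (fun i => (X : L[X]) ^ i) 10 911 =
        X ^ 9 + X ^ 8 + X ^ 7 + X ^ 3 + X ^ 2 + X + 1 := by
      simp [Phi, sum_range_succ, Nat.testBit]
      ring
    have hdeg : (X ^ 9 + X ^ 8 + X ^ 7 + X ^ 3 + X ^ 2 + X + 1 : L[X]).degree = 9 := by
      compute_degree!
    obtain ⟨β, hβ⟩ := IsAlgClosed.exists_root
      (X ^ 9 + X ^ 8 + X ^ 7 + X ^ 3 + X ^ 2 + X + 1 : L[X]) (by rw [hdeg]; norm_num)
    refine ⟨β, ?_⟩
    rw [IsRoot.def] at hβ
    simp only [eval_add, eval_pow, eval_X, eval_one] at hβ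
    rw [← hβ]
    simp [Phi, sum_range_succ, Nat.testBit]
    ring
  obtain ⟨β, hβ⟩ := hroot
  have h511 := alpha_pow hβ
  let ι : GaloisField 2 9 →ₐ[ZMod 2] L := IsAlgClosed.lift
  have hmem : β ∈ Set.range ι := by
    by_contra hne
    classical
    have : Fintype (GaloisField 2 9) := Fintype.ofFinite _
    have hcard : Fintype.card (GaloisField 2 9) = 512 := by
      rw [← Nat.card_eq_fintype_card, GaloisField.card 2 9 (by norm_num)]; norm_num
    have hq : (X ^ 512 - X : L[X]) ≠ 0 := FiniteField.X_pow_card_sub_X_ne_zero L (by norm_num)
    have hsub : insert β (Finset.univ.image ι) ⊆ (X ^ 512 - X : L[X]).roots.toFinset := by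
      intro y hy
      rw [Multiset.mem_toFinset, mem_roots hq, IsRoot.def, eval_sub, eval_pow, eval_X, sub_eq_zero]
      rcases Finset.mem_insert.1 hy with rfl | hy
      · exact pow512 h511
      · obtain ⟨x, _, rfl⟩ := Finset.mem_image.1 hy
        have h0 : x ^ 512 = x := by
          have := FiniteField.pow_card x
          rwa [hcard] at this
        have h1 := congrArg ι h0
        rwa [map_pow] at h1
    have h1 := Finset.card_le_card hsub
    rw [Finset.card_insert_of_notMem,
      Finset.card_image_of_injective _ (show Function.Injective ι from ι.toRingHom.injective), Finset.card_univ, hcard] at h1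
    · have h2 := Multiset.toFinset_card_le (X ^ 512 - X : L[X]).roots
      have h3 := card_roots' (X ^ 512 - X : L[X])
      rw [FiniteField.X_pow_card_sub_X_natDegree_eq L (by norm_num)] at h3
      omega
    · intro h
      obtain ⟨x, _, hx⟩ := Finset.mem_image.1 h
      exact hne ⟨x, hx⟩
  obtain ⟨α, hα⟩ := hmem
  refine ⟨α, ?_⟩
  apply ι.toRingHom.injective
  rw [map_zero]
  rw [← hβ]
  simp only [Phi]
  rw [map_sum]
  apply sum_congr rfl
  intro i _
  rw [map_mul, map_natCast, map_pow]
  congr 2

theorem main (K : Type) [Field K] [Fintype K] [CharP K 2] (hK : Fintype.card K = 512) (α : K)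
    (hα : Phi (fun i => α ^ i) 10 911 = 0) :
    Data 9 10 K α (gg hK hα) 0 (fun i => i + 1) ss where
  one_le := by norm_num
  lt := by norm_num
  card := by rw [hK]; norm_num
  primitive := by rw [order_alpha hα]; norm_num
  orth := orth_gg hK hα
  nonaffine := nonaffine_gg hK hα
  mono := by intro i j h; simpa using h
  pos := by intro i; omega
  small := by intro i; omega
  recur := by
    intro k
    have h1 : (fun i : Fin 9 => ss (k + ((i : ℕ) + 1))) =
        fun i : Fin 9 => B2 ((st k >>> 1).testBit i) := by
      funext i
      rw [Nat.testBit_shiftRight, ← window (show (i : ℕ) + 1 < 10 by omega), add_comm 1 (i : ℕ)]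
    rw [h1, ofCoord_bits, gg_phi hK hα (by
      rw [Nat.shiftRight_eq_div_pow]; have := st_lt k; omega), zero_add]
    rw [show k + 10 = k + 1 + 9 by ring, ← window (show 9 < 10 by norm_num), st_succ,
      testBit_nx9 (st_lt k), B2_xor]
    rfl

/-- **Q1 is false.** There are a field `K` with `2 ^ 9` elements, a primitive element `α`, an
orthogonal and nonaffine function `g` and a span `10` sequence `s` with
`s (k + 10) = s k + g (s (k + 1), …, s (k + 9))` and linear span at most `987`, which is less than
`2 ^ 10 - 2 - 3 * 10 = 992`. -/
theorem result : ¬ Conjecture ∧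
    ∃ (K : Type) (_ : Field K) (_ : Fintype K) (α : K) (g : K → ZMod 2) (s : ℕ → ZMod 2),
      Data 9 10 K α g 0 (fun i => i + 1) s ∧ IsSpan 10 s ∧ LS s ≤ 987 := by
  have h : ∃ (K : Type) (_ : Field K) (_ : Fintype K) (α : K) (g : K → ZMod 2) (s : ℕ → ZMod 2),
      Data 9 10 K α g 0 (fun i => i + 1) s ∧ IsSpan 10 s ∧ LS s ≤ 987 := by
    obtain ⟨α, hα⟩ := exists_root
    let _ : Fintype (GaloisField 2 9) := Fintype.ofFinite _
    have hcard : Fintype.card (GaloisField 2 9) = 512 := by
      rw [← Nat.card_eq_fintype_card, GaloisField.card 2 9 (by norm_num)]; norm_num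
    exact ⟨GaloisField 2 9, inferInstance, inferInstance, α, gg hcard hα, ss,
      main _ hcard α hα, isSpan_ss, LS_le⟩
  refine ⟨fun hC => ?_, h⟩
  obtain ⟨K, _, _, α, g, s, hD, hs, hL⟩ := h
  have := (hC 9 10 K α g 0 _ s hD (Or.inl hs)).1
  norm_num at this
  omega

end Pool.Agent.Results.MP_593d43_lc.SmallLinearSpan
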